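import Pool.Agent.Helper79.TL.Core

set_option autoImplicit false

open Module

namespace Pool.Agent.Helper79.TL.A4

open Pool.Agent.Helper79.TL

variable {F : Type} [Field F] [CharP F 3] {M : Type} [AddCommGroup M] [Module F M]
  {t s : Module.End F M} {Y : Fin 3 → Module.End F M}

/-- TL-A4 -/
theorem fside_triv [Nontrivial M] (h : HMod t s Y) (ht : t = 1) (hZ : Zop t Y = 0)
    (hgen : ∀ u : M, u ≠ 0 → Gen t s Y u) : finrank F M ≤ 1 := by
  subst ht
  have h3F : (3 : F) = 0 := by exact_mod_cast CharP.cast_eq_zero F 3
  have h3 : ∀ m : M, (3 : F) • m = 0 := fun m => by rw [h3F, zero_smul]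
  -- the anti-invariants of `s` vanish
  have hanti : ∀ v : M, s v = -v → v = 0 := by
    intro v hv
    have hY0 : Y 0 v = 0 := by
      have h1 := congrArg (fun f : Module.End F M => f v) h.Y0s
      simp only [Module.End.mul_apply, hv, map_neg] at h1
      linear_combination (norm := module) h3 (Y 0 v) + h1
    have hY1 : Y 1 v = 0 := by
      have h1 := congrArg (fun f : Module.End F M => f v) h.Y1s
      simp only [Module.End.mul_apply, hv, map_neg] at h1
      linear_combination (norm := module) h3 (Y 1 v) + h1
    have hz := congrArg (fun f : Module.End F M => f v) hZ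
    simp only [Zop, one_pow, one_mul, mul_one, Finset.sum_const, Finset.card_range,
      LinearMap.add_apply, LinearMap.smul_apply, Module.End.mul_apply, hY0, hY1, map_zero,
      Module.End.ofNat_apply, LinearMap.zero_apply, zero_add] at hz
    have h2 := congrArg (fun f : Module.End F M => f v) h.r202
    simp only [Module.End.mul_apply, LinearMap.sub_apply, Module.End.ofNat_apply, hv] at h2
    have hY2 : Y 2 v = 0 := by
      linear_combination (norm := module) hz - (5 : F) • h2 + (7 : F) • h3 (Y 2 v) - (64 : F) • h3 v
    rw [hY2, map_zero] at h2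
    linear_combination (norm := module) (11 : F) • h3 v + h2
  have hs : ∀ m : M, s m = m := by
    intro m
    have hss := congrArg (fun f : Module.End F M => f m) h.ss
    simp only [Module.End.mul_apply, Module.End.one_apply] at hss
    have h0 : m - s m = 0 := by
      apply hanti
      rw [map_sub, hss, neg_sub]
    exact (sub_eq_zero.mp h0).symm
  have hY2 : ∀ v : M, Y 2 v = 0 := by
    intro v
    have h1 := congrArg (fun f : Module.End F M => f v) h.Y2s
    simp only [Module.End.mul_apply, LinearMap.neg_apply, hs] at h1
    linear_combination (norm := module) h3 (Y 2 v) - h1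
  have hr0 : ∀ v : M, Y 0 (Y 0 v) = (32 : F) • v - (4 : F) • Y 1 v := by
    intro v
    have h1 := congrArg (fun f : Module.End F M => f v) h.r000
    simp only [Module.End.mul_apply, LinearMap.add_apply, LinearMap.sub_apply,
      Module.End.ofNat_apply, hs] at h1
    linear_combination (norm := module) h1
  have hr1 : ∀ v : M, Y 0 (Y 0 v) = -(4 : F) • Y 0 v + (8 : F) • Y 1 v := by
    intro v
    have h1 := congrArg (fun f : Module.End F M => f v) h.r010
    simp only [one_pow, mul_one, Module.End.mul_apply, LinearMap.add_apply, LinearMap.sub_apply,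
      LinearMap.neg_apply, Module.End.one_apply, sub_self, zero_mul, LinearMap.zero_apply,
      map_add, map_zero] at h1
    linear_combination (norm := module) h1
  have hY0 : ∀ v : M, Y 0 v = v := by
    intro v
    linear_combination (norm := module) hr1 v - hr0 v - h3 (Y 0 v) +(4 : F) • h3 (Y 1 v)
      - (11 : F) • h3 v
  have hY1 : ∀ v : M, Y 1 v = v := by
    intro v
    have h1 := hr0 v
    rw [hY0, hY0] at h1
    linear_combination (norm := module) h1 - h3 (Y 1 v) + (10 : F) • h3 v
  obtain ⟨v, hv⟩ := exists_ne (0 : M)
  have hg := hgen v hv (Submodule.span F {v})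
  have hmem : v ∈ Submodule.span F {v} := Submodule.mem_span_singleton_self v
  have hspow : ∀ e : ℕ, (s ^ e) v = v := by
    intro e
    induction e with
    | zero => simp
    | succ n ih => rw [pow_succ, Module.End.mul_apply, hs, ih]
  have htop : Submodule.span F {v} = ⊤ := by
    apply hg
    · intro k e
      rw [one_pow, one_mul, hspow]
      exact hmem
    · intro k m j
      rw [one_pow, one_pow, one_mul, mul_one]
      fin_cases j
      · show Y 0 v ∈ _
        rw [hY0]; exact hmem
      · show Y 1 v ∈ _
        rw [hY1]; exact hmem
      · show Y 2 v ∈ _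
        rw [hY2]; exact Submodule.zero_mem _
  apply finrank_le_one v
  intro w
  have hw : w ∈ Submodule.span F {v} := by rw [htop]; trivial
  exact Submodule.mem_span_singleton.mp hw

end Pool.Agent.Helper79.TL.A4
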