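import Pool.Agent.Helper79.TL.Grp2

/-!
# TL-G3: relations of the generators
-/

set_option autoImplicit false

open Module

namespace Pool.Agent.Helper79.TL.G3

open Pool.Agent.Helper79.TL

/-- exclusive or on `Fin 16` -/
def cxor (a b : Fin 16) : Fin 16 := Fin.ofNat 16 (Nat.xor a b)

/-- conjugation by `t` -/
def ctab : Fin 16 → Fin 16 := ![0, 3, 5, 6, 9, 10, 12, 15, 1, 2, 4, 7, 8, 11, 13, 14]

/-- conjugation by `s` -/
def cstab : Fin 16 → Fin 16 := ![0, 3, 2, 1, 10, 9, 8, 11, 6, 5, 4, 7, 12, 15, 14, 13]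

set_option maxRecDepth 100000 in
lemma c_r_mul : ∀ a b : Fin 16, mulN (cr a) (cr b) = cr (cxor a b) := by decide +kernel

set_option maxRecDepth 100000 in
lemma c_t_r : ∀ a : Fin 16, mulN ct (cr a) = mulN (cr (ctab a)) ct := by decide +kernel

set_option maxRecDepth 100000 in
lemma c_s_r : ∀ a : Fin 16, mulN cs (cr a) = mulN (cr (cstab a)) cs := by decide +kernel

/-- `s * x j = r (sx j) * x j * r (sx j) * s` -/
def sx : Fin 3 → Fin 16 := ![2, 12, 0]

set_option maxRecDepth 100000 in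
lemma c_s_x : ∀ j : Fin 3, mulN cs (cx j) =
    mulN (mulN (mulN (cr (sx j)) (cx j)) (cr (sx j))) cs := by decide +kernel

set_option maxRecDepth 100000 in
lemma c_t4 : mulN ct (mulN ct (mulN ct ct)) = cti := by decide +kernel

set_option maxRecDepth 100000 in
lemma c_s_t : mulN cs ct = mulN cti cs := by decide +kernel

lemma toM_cz : toM cz = -1 := by decide +kernel

set_option maxRecDepth 100000 in
lemma r_inj_code : ∀ a b : Fin 16, toM (cr a) = toM (cr b) → a = b := by decide +kernel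

lemma z_val : ((D0.z : U) : Matrix (Fin 6) (Fin 6) (ZMod 3)) = toM cz := rfl

lemma t_val : ((D0.t : U) : Matrix (Fin 6) (Fin 6) (ZMod 3)) = toM ct := rfl

lemma s_val : ((D0.s : U) : Matrix (Fin 6) (Fin 6) (ZMod 3)) = toM cs := rfl

lemma x_val (j : Fin 3) : ((D0.x j : U) : Matrix (Fin 6) (Fin 6) (ZMod 3)) = toM (cx j) := rfl

lemma t4_val : ((D0.t ^ 4 : U) : Matrix (Fin 6) (Fin 6) (ZMod 3)) = toM cti := by
  rw [Units.val_pow_eq_pow_val, t_val, ← c_t4, toM_mulN, toM_mulN, toM_mulN]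
  simp only [pow_succ, pow_zero, one_mul, mul_assoc]

/-- TL-G3 -/
theorem goodPre_D0_a : (∀ g, D0.z * g = g * D0.z) ∧ D0.z * D0.z = 1 ∧ D0.r 0 = 1 ∧
    Function.Injective D0.r ∧ (∀ a b, ∃ c, D0.r a * D0.r b = D0.r c) ∧
    (∀ a, D0.r a * D0.r a = 1) ∧ D0.t ^ 5 = 1 ∧ D0.s * D0.s = 1 ∧ D0.s * D0.t = D0.t ^ 4 * D0.s ∧
    (∀ a, ∃ b, D0.t * D0.r a = D0.r b * D0.t) ∧ (∀ a, ∃ b, D0.s * D0.r a = D0.r b * D0.s) ∧
    (∀ j, ∃ a b, D0.s * D0.x j = D0.r a * D0.x j * D0.r b * D0.s) ∧ (∀ j, D0.x j * D0.x j = 1) := by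
  refine ⟨fun g => ?_, ?_, ?_, ?_, fun a b => ⟨cxor a b, ?_⟩, fun a => ?_, ?_, ?_, ?_,
    fun a => ⟨ctab a, ?_⟩, fun a => ⟨cstab a, ?_⟩, fun j => ⟨sx j, sx j, ?_⟩, fun j => ?_⟩
  · apply U_ext
    rw [Units.val_mul, Units.val_mul, z_val, toM_cz, neg_mul, mul_neg, one_mul, mul_one]
  · apply U_ext
    rw [Units.val_mul, Units.val_one, z_val, ← toM_mulN, cz_inv, toM_cI]
  · apply U_ext
    rw [r_val, Units.val_one, ← toM_cI]; rfl
  · intro a b hab
    apply r_inj_code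
    rw [← r_val, ← r_val, hab]
  · apply U_ext
    rw [Units.val_mul, r_val, r_val, r_val, ← toM_mulN, c_r_mul]
  · apply U_ext
    rw [Units.val_mul, Units.val_one, r_val, ← toM_mulN, cr_inv, toM_cI]
  · apply U_ext
    rw [pow_succ, Units.val_mul, t4_val, t_val, ← toM_mulN, ct_inv', toM_cI, Units.val_one]
  · apply U_ext
    rw [Units.val_mul, Units.val_one, s_val, ← toM_mulN, cs_inv, toM_cI]
  · apply U_ext
    rw [Units.val_mul, Units.val_mul, t4_val, s_val, t_val, ← toM_mulN, ← toM_mulN, c_s_t]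
  · apply U_ext
    rw [Units.val_mul, Units.val_mul, t_val, r_val, r_val, ← toM_mulN, ← toM_mulN, c_t_r]
  · apply U_ext
    rw [Units.val_mul, Units.val_mul, s_val, r_val, r_val, ← toM_mulN, ← toM_mulN, c_s_r]
  · apply U_ext
    rw [Units.val_mul, Units.val_mul, Units.val_mul, Units.val_mul, s_val, x_val, r_val,
      ← toM_mulN, ← toM_mulN, ← toM_mulN, ← toM_mulN, c_s_x]
  · apply U_ext
    rw [Units.val_mul, Units.val_one, x_val, ← toM_mulN, cx_inv, toM_cI]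

end Pool.Agent.Helper79.TL.G3
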