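import Pool.Agent.Helper79.TL.Psl
import Pool.Agent.Helper46.TL.P1

/-!
# TL-S4: every element of `SL(3, F4)` is the first component of an element of `EE`
-/

set_option autoImplicit false

open Module Matrix
open scoped MatrixGroups

namespace Pool.Agent.Helper79.TL.S4

open Pool.Agent.Helper79.TL

/-- the matrices of the generators and the scalar -/
def AAx : Fin 12 → Matrix (Fin 3) (Fin 3) F4 :=
  ![m4 !![1, 0, 0; 0, 1, 0; 0, 0, 1],
    m4 !![3, 3, 1; 0, 3, 0; 0, 0, 3],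
    m4 !![1, 3, 2; 0, 1, 0; 0, 0, 1],
    m4 !![3, 2, 0; 0, 3, 0; 0, 0, 3],
    m4 !![1, 1, 1; 0, 1, 0; 0, 0, 1],
    m4 !![3, 3, 0; 0, 2, 3; 0, 3, 0],
    m4 !![3, 1, 3; 0, 2, 3; 0, 2, 2],
    m4 !![2, 1, 3; 0, 0, 1; 0, 3, 0],
    m4 !![3, 3, 0; 2, 3, 0; 3, 2, 2],
    m4 !![1, 0, 0; 3, 2, 2; 1, 1, 2],
    m4 !![1, 1, 1; 3, 3, 1; 1, 2, 0],
    m4 !![2, 0, 0; 0, 2, 0; 0, 0, 2]]

/-- the generators and the scalar -/
def gx (i : Fin 12) : SL(3, F4) := if h : (i : ℕ) < 11 then AA ⟨i, h⟩ else Sc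

/-- words for the transvections -/
def ww : Fin 3 → Fin 3 → Fin 4 → List (Fin 12) :=
  ![![![[], [], [], []],
     ![[], [1, 2, 3, 11, 11], [1, 2, 11], [3, 11]],
     ![[], [1, 2, 3, 4, 11, 11], [2, 3, 11], [1, 4, 11]]],
    ![![[], [1, 6, 4, 5, 9, 5, 1, 11, 11], [1, 9, 4, 5, 10, 1, 11], [6, 3, 5, 10, 3, 5, 11]],
     ![[], [], [], []],
     ![[], [6, 5, 7, 5, 11, 11], [5, 8, 10, 4, 11], [6, 3, 5, 3, 5, 11, 11]]],
    ![![[], [1, 10, 5, 6, 10, 1, 11, 11], [1, 9, 5, 5, 10, 7, 1, 11], [1, 9, 1, 5, 10, 1, 11, 11]],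
     ![[], [5, 7, 5, 5, 7, 11], [8, 10, 4, 5, 11], [1, 5, 6, 1, 11]],
     ![[], [], [], []]]]

lemma gx_val (i : Fin 12) : ((gx i : SL(3, F4)) : Matrix (Fin 3) (Fin 3) F4) = AAx i := by
  fin_cases i <;> rfl

/-- vector times word: `v * (product of the word)` -/
def vm (v : Fin 3 → F4) (i : Fin 12) : Fin 3 → F4 :=
  ![v 0 * AAx i 0 0 + v 1 * AAx i 1 0 + v 2 * AAx i 2 0,
    v 0 * AAx i 0 1 + v 1 * AAx i 1 1 + v 2 * AAx i 2 1,
    v 0 * AAx i 0 2 + v 1 * AAx i 1 2 + v 2 * AAx i 2 2]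

lemma vm_eq (v : Fin 3 → F4) (i : Fin 12) : vm v i = v ᵥ* AAx i := by
  funext k
  fin_cases k <;> simp [vm, Matrix.vecMul, dotProduct, Fin.sum_univ_three]

lemma foldl_vm (w : List (Fin 12)) (v : Fin 3 → F4) :
    w.foldl vm v = v ᵥ* (((w.map gx).prod : SL(3, F4)) : Matrix (Fin 3) (Fin 3) F4) := by
  induction w generalizing v with
  | nil => simp
  | cons i w ih =>
    have h1 : (((gx i * (w.map gx).prod : SL(3, F4))) : Matrix (Fin 3) (Fin 3) F4) =
        AAx i * ((w.map gx).prod : SL(3, F4)).1 := by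
      rw [← gx_val]; rfl
    rw [List.foldl_cons, ih, vm_eq, List.map_cons, List.prod_cons, h1, Matrix.vecMul_vecMul]

/-- unit vectors -/
def uv (a : Fin 3) : Fin 3 → F4 := fun b => if b = a then F4.mk 1 else F4.mk 0

/-- the rows of a transvection -/
def tr (i j : Fin 3) (c : Fin 4) (a b : Fin 3) : F4 :=
  (if a = b then F4.mk 1 else F4.mk 0) + (if a = i ∧ b = j then F4.mk c else F4.mk 0)

set_option maxRecDepth 100000 in
lemma check : ∀ (i j : Fin 3), i ≠ j → ∀ (c : Fin 4) (a b : Fin 3),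
    (ww i j c).foldl vm (uv a) b = tr i j c a b := by decide +kernel

lemma uv_eq (a : Fin 3) : uv a = Pi.single a 1 := by
  funext b
  simp only [uv, Pi.single_apply]
  rfl

lemma transvection_eq (i j : Fin 3) (h : i ≠ j) (c : Fin 4) :
    (SpecialLinearGroup.transvection h (F4.mk c) : SL(3, F4)) = ((ww i j c).map gx).prod := by
  apply Subtype.ext
  ext a b
  have h1 := check i j h c a b
  rw [foldl_vm, uv_eq, Matrix.single_one_vecMul] at h1
  refine Eq.trans ?_ h1.symm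
  simp only [SpecialLinearGroup.transvection_coe, Matrix.add_apply, Matrix.one_apply,
    Matrix.single_apply, tr, eq_comm (a := i), eq_comm (a := j)]
  rfl

/-- TL-S4 -/
theorem alpha_surj : ∀ A : SL(3, F4), ∃ x ∈ EE, x.1 = A := by
  have hgx : ∀ i : Fin 12, gx i ∈ EE.map (MonoidHom.fst _ _) := by
    intro i
    unfold gx
    split_ifs with h
    · exact ⟨(AA ⟨i, h⟩, genU ⟨i, h⟩, sg ⟨i, h⟩),
        Subgroup.subset_closure (Or.inl ⟨⟨i, h⟩, rfl⟩), rfl⟩
    · exact ⟨(Sc, 1, 1), Subgroup.subset_closure (Or.inr rfl), rfl⟩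
  have hmem : ∀ A : SL(3, F4), A ∈ EE.map (MonoidHom.fst _ _) := by
    refine P1.transvection_induction _ ?_ ?_
    · intro i j h c
      have h1 := transvection_eq i j h c
      have h2 : (SpecialLinearGroup.transvection h c : SL(3, F4)) = ((ww i j c).map gx).prod := h1
      rw [h2]
      apply Subgroup.list_prod_mem
      intro x hx
      rw [List.mem_map] at hx
      obtain ⟨k, -, rfl⟩ := hx
      exact hgx k
    · intro A B hA hB
      exact Subgroup.mul_mem _ hA hB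
  intro A
  obtain ⟨x, hx, hxA⟩ := hmem A
  exact ⟨x, hx, hxA⟩

end Pool.Agent.Helper79.TL.S4
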